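import Pool.Agent.R904.RK.Defs
import Pool.Agent.R903.PermCyc
import Pool.Agent.R903.OneCK

/-!
# Homologically trivial cycles on `X × ℙ¹`
-/

set_option autoImplicit false

open CategoryTheory AlgebraicGeometry
open Pool.Agent.H914 Pool.Agent.H914.VarClass Pool.Agent.H914.VarClass.Obj
open Pool.Agent.R903

universe u v w

namespace Pool.Agent.R904.RK

variable {k : Type u} [Field k] {𝒱 : VarClass k} {C : ChowTheory.{u, v} 𝒱}
  {W : WeilTheory.{u, v, w} C} {E : EulerFactors 𝒱} {L : 𝒱.Obj}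

lemma mem_hom0 {X : 𝒱.Obj} {p : ℕ} {x : C.CH X} :
    x ∈ hom0 W X p ↔ x ∈ C.gr X p ∧ W.cl X x = 0 := by
  simp [hom0]

lemma one_ne_zero' (hC : C.Polarized) (X : 𝒱.Obj) : (1 : W.H X) ≠ 0 := by
  intro h
  obtain ⟨D, hD, hdeg⟩ := hC X
  have h1 : W.tr X (W.cl X (D ^ X.dim)) = (C.deg X (D ^ X.dim) : W.K) := W.tr_cl _
  have h2 : W.cl X (D ^ X.dim) = 0 := by rw [← mul_one (W.cl X _), h, mul_zero]
  rw [h2, map_zero] at h1
  exact hdeg (by exact_mod_cast h1.symm)

lemma hom0_zero (hC : C.Polarized) (X : 𝒱.Obj) : hom0 W X 0 = ⊥ := by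
  rw [eq_bot_iff]
  intro x hx
  obtain ⟨h1, h2⟩ := mem_hom0.1 hx
  obtain ⟨q, rfl⟩ := ChowTheory.gr_zero h1
  have h4 : W.cl X (q • (1 : C.CH X)) = (q : W.K) • (1 : W.H X) := by
    rw [Algebra.smul_def, map_mul, map_one, mul_one]
    have h5 : (W.cl X).comp (algebraMap ℚ (C.CH X)) =
        ((algebraMap W.K (W.H X)).comp (algebraMap ℚ W.K) : ℚ →+* W.H X) := Subsingleton.elim _ _
    have h6 := congrArg (fun f : ℚ →+* W.H X => f q) h5
    simp only [RingHom.comp_apply] at h6
    rw [h6, Algebra.smul_def, mul_one]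
    simp
  rw [h2] at h4
  have : (q : W.K) = 0 := by
    rcases smul_eq_zero.1 h4.symm with h | h
    · exact h
    · exact absurd h (one_ne_zero' hC X)
  have hq : q = 0 := by exact_mod_cast this
  rw [hq]
  simp

lemma hom0_top (X : 𝒱.Obj) {p : ℕ} (h : X.dim < p) : hom0 W X p = ⊥ := by
  rw [eq_bot_iff]
  intro x hx
  have := (mem_hom0.1 hx).1
  rwa [C.gr_eq_bot X p h] at this

section Line

variable (hL : IsLine C E L)
include hL

lemma push_one (X : 𝒱.Obj) : C.push (fst X L) 1 = 0 :=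
  C.push_eq_zero (fst X L) (C.one_mem _) (by rw [dim_prod, hL.dim]; omega)

/-- `CH^(n+1)(X × ℙ¹)_0 = CH^(n+1)(X)_0 ⊕ CH^n(X)_0` -/
theorem hom0_prod (X : 𝒱.Obj) (n : ℕ) :
    Nonempty (hom0 W (X.prod L) (n + 1) ≃ₗ[ℚ] hom0 W X (n + 1) × hom0 W X n) := by
  obtain ⟨h, hh, hdeg, hc⟩ := hL.cycles
  have hdim : (X.prod L).dim = X.dim + 1 := by rw [dim_prod, hL.dim]
  have hpa : ∀ a : C.CH X, C.push (fst X L) (C.pull (fst X L) a) = 0 := by
    intro a
    have := C.push_mul (fst X L) 1 a
    rw [one_mul, push_one hL, zero_mul] at this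
    exact this
  have hph : C.push (fst X L) (C.pull (snd X L) h) = 1 := by
    rw [ChowTheory.push_fst_pull_snd, hdeg, map_one]
  have hpb : ∀ b : C.CH X, C.push (fst X L) (C.pull (fst X L) b * C.pull (snd X L) h) = b := by
    intro b
    rw [C.mul_push, hph, mul_one]
  have hhh : C.pull (snd X L) h * C.pull (snd X L) h = 0 := by
    rw [← C.pull_mul]
    have h1 : h * h ∈ C.gr L (1 + 1) := C.mul_mem hh hh
    rw [C.gr_eq_bot L (1 + 1) (by rw [hL.dim]; norm_num), Submodule.mem_bot] at h1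
    rw [h1, map_zero]
  let f : hom0 W (X.prod L) (n + 1) →ₗ[ℚ] hom0 W X (n + 1) × hom0 W X n :=
    { toFun := fun z => (⟨C.push (fst X L) (z.1 * C.pull (snd X L) h), by
          have hz := mem_hom0.1 z.2
          refine mem_hom0.2 ⟨C.push_mem _ (C.mul_mem hz.1 (C.pull_mem _ hh)) (by omega), ?_⟩
          rw [W.cl_push, map_mul, hz.2, zero_mul, map_zero]⟩,
        ⟨C.push (fst X L) z.1, by
          have hz := mem_hom0.1 z.2
          refine mem_hom0.2 ⟨C.push_mem _ hz.1 (by omega), ?_⟩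
          rw [W.cl_push, hz.2, map_zero]⟩)
      map_add' := by
        intro x y
        simp only [Prod.mk_add_mk, Submodule.coe_add, add_mul, map_add]
        rfl
      map_smul' := by
        intro c x
        simp only [Submodule.coe_smul, RingHom.id_apply, smul_mul_assoc, map_smul, Prod.smul_mk]
        rfl }
  let g : hom0 W X (n + 1) × hom0 W X n →ₗ[ℚ] hom0 W (X.prod L) (n + 1) :=
    { toFun := fun z => ⟨C.pull (fst X L) z.1.1 + C.pull (fst X L) z.2.1 * C.pull (snd X L) h, by
        have h1 := mem_hom0.1 z.1.2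
        have h2 := mem_hom0.1 z.2.2
        refine mem_hom0.2 ⟨Submodule.add_mem _ (C.pull_mem _ h1.1)
          (C.mul_mem (C.pull_mem _ h2.1) (C.pull_mem _ hh)), ?_⟩
        rw [map_add, map_mul, W.cl_pull, W.cl_pull, h1.2, h2.2]
        simp⟩
      map_add' := by
        intro x y
        apply Subtype.ext
        simp only [Prod.fst_add, Prod.snd_add, Submodule.coe_add, map_add, add_mul]
        abel
      map_smul' := by
        intro c x
        apply Subtype.ext
        simp only [Prod.smul_fst, Prod.smul_snd, Submodule.coe_smul, map_smul, smul_mul_assoc,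
          RingHom.id_apply, smul_add] }
  refine ⟨LinearEquiv.ofLinearMap f g ?_ ?_⟩
  · apply LinearMap.ext
    rintro ⟨a, b⟩
    apply Prod.ext
    · apply Subtype.ext
      change C.push (fst X L) ((C.pull (fst X L) a.1 +
        C.pull (fst X L) b.1 * C.pull (snd X L) h) * C.pull (snd X L) h) = a.1
      rw [add_mul, mul_assoc, hhh, mul_zero, add_zero, hpb]
    · apply Subtype.ext
      change C.push (fst X L) (C.pull (fst X L) a.1 +
        C.pull (fst X L) b.1 * C.pull (snd X L) h) = b.1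
      rw [map_add, hpa, hpb, zero_add]
  · apply LinearMap.ext
    rintro ⟨z, hz⟩
    apply Subtype.ext
    obtain ⟨a, b, rfl⟩ := hc X z
    change C.pull (fst X L) (C.push (fst X L) ((C.pull (fst X L) a +
        C.pull (fst X L) b * C.pull (snd X L) h) * C.pull (snd X L) h)) +
      C.pull (fst X L) (C.push (fst X L) (C.pull (fst X L) a +
        C.pull (fst X L) b * C.pull (snd X L) h)) * C.pull (snd X L) h = _
    rw [add_mul, mul_assoc, hhh, mul_zero, add_zero, hpb, map_add, hpa, hpb, zero_add]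
    rfl

end Line

end Pool.Agent.R904.RK
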