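import Pool.Agent.R904.RK.Defs

/-!
# Orders of vanishing
-/

set_option autoImplicit false

open CategoryTheory AlgebraicGeometry
open Pool.Agent.H914 Pool.Agent.H914.VarClass Pool.Agent.H914.VarClass.Obj
open Pool.Agent.R903

universe u v w

namespace Pool.Agent.R904.RK

variable {k : Type u} [Field k] {𝒱 : VarClass k} {C : ChowTheory.{u, v} 𝒱}

namespace EulerFactors

variable {E : EulerFactors 𝒱} {X Y L B : 𝒱.Obj} {j : ℕ} {m : ℝ} {F G : ℂ → ℂ}

/-- Two meromorphic continuations along the real axis have the same order. -/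
theorem IsContinuation.order_unique (hF : E.IsContinuation X j m F)
    (hG : E.IsContinuation X j m G) :
    meromorphicOrderAt F m = meromorphicOrderAt G m := by
  obtain ⟨⟨σ, hσ⟩, hF⟩ := hF
  obtain ⟨⟨τ, hτ⟩, hG⟩ := hG
  set U : Set ℂ := (fun x : ℝ => (x : ℂ)) '' Set.Ici m with hU
  have hcon : IsConnected U := by
    rw [hU]
    exact isConnected_Ici.image _ Complex.continuous_ofReal.continuousOn
  have hmero : MeromorphicOn (F - G) U := by
    rintro _ ⟨x, hx, rfl⟩
    exact (hF x hx).sub (hG x hx)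
  have hagree : ∀ s : ℂ, max σ τ < s.re → F s = G s := fun s hs =>
    (hσ s (lt_of_le_of_lt (le_max_left _ _) hs)).unique
      (hτ s (lt_of_le_of_lt (le_max_right _ _) hs))
  set y : ℝ := max m (max σ τ + 1) with hy
  have hyU : (y : ℂ) ∈ U := ⟨y, Set.mem_Ici.2 (le_max_left _ _), rfl⟩
  have hmU : (m : ℂ) ∈ U := ⟨m, Set.mem_Ici.2 (le_refl m), rfl⟩
  have hytop : meromorphicOrderAt (F - G) y = ⊤ := by
    rw [meromorphicOrderAt_eq_top_iff]
    have hopen : {s : ℂ | max σ τ < s.re} ∈ nhds (y : ℂ) := by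
      apply IsOpen.mem_nhds (isOpen_lt continuous_const Complex.continuous_re)
      change max σ τ < (y : ℂ).re
      rw [Complex.ofReal_re]
      have := le_max_right m (max σ τ + 1)
      linarith
    filter_upwards [nhdsWithin_le_nhds hopen] with s hs
    simp [hagree s hs]
  have hmtop : meromorphicOrderAt (F - G) m = ⊤ := by
    by_contra hne
    exact (hmero.meromorphicOrderAt_ne_top_of_isPreconnected hcon.isPreconnected hmU hyU hne) hytop
  rw [meromorphicOrderAt_eq_top_iff] at hmtop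
  apply meromorphicOrderAt_congr
  filter_upwards [hmtop] with s hs
  simpa [sub_eq_zero] using hs

lemma eval_twist (a : ℂ) (P : Polynomial ℂ) (z : ℂ) : (twist a P).eval z = P.eval (a * z) := by
  simp [twist]

lemma q_pow (hE : E.Basic) (v : E.Pl) (n : ℕ) (s : ℂ) :
    (E.q v : ℂ) ^ n * (E.q v : ℂ) ^ (-s) = (E.q v : ℂ) ^ (-(s - n)) := by
  have hq : (E.q v : ℂ) ≠ 0 := by exact_mod_cast (hE.q_pos v).ne'
  rw [← Complex.cpow_natCast, ← Complex.cpow_add _ _ hq]
  congr 1
  ring

/-- continuation of a Tate twist -/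
theorem IsContinuation.shift (hF : E.IsContinuation X j m F) (n : ℕ) :
    (∃ σ : ℝ, ∀ s : ℂ, σ < s.re →
      HasProd (fun v => ((E.P v X j).eval ((E.q v : ℂ) ^ (-(s - n))))⁻¹) (F (s - n))) ∧
    ∀ x : ℝ, m + n ≤ x → MeromorphicAt (fun s => F (s - n)) x := by
  obtain ⟨⟨σ, hσ⟩, hF⟩ := hF
  refine ⟨⟨σ + n, fun s hs => hσ (s - n) (by simp; linarith)⟩, fun x hx => ?_⟩
  rw [meromorphicAt_fun_comp_sub_const_iff_meromorphicAt]
  have := hF (x - n) (by linarith)
  simpa using this

/-- a finite product of Tate twists -/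
theorem isContinuation_prod (hE : E.Basic) {ι : Type*} (S : Finset ι) (n : ι → ℕ) (jj : ι → ℕ)
    (Fs : ι → ℂ → ℂ) (hFs : ∀ a ∈ S, E.IsContinuation X (jj a) (m - n a) (Fs a)) {j' : ℕ}
    (hP : ∀ v, E.P v Y j' = ∏ a ∈ S, twist ((E.q v : ℂ) ^ n a) (E.P v X (jj a))) :
    E.IsContinuation Y j' m (fun s => ∏ a ∈ S, Fs a (s - n a)) := by
  classical
  have h1 := fun a (ha : a ∈ S) => (hFs a ha).shift (n a)
  constructor
  · have h2 : ∃ σ : ℝ, ∀ a ∈ S, ∀ s : ℂ, σ < s.re →
        HasProd (fun v => ((E.P v X (jj a)).eval ((E.q v : ℂ) ^ (-(s - n a))))⁻¹)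
          (Fs a (s - n a)) := by
      have h3 : ∀ a : ι, ∃ σ : ℝ, a ∈ S → ∀ s : ℂ, σ < s.re →
        HasProd (fun v => ((E.P v X (jj a)).eval ((E.q v : ℂ) ^ (-(s - n a))))⁻¹)
          (Fs a (s - n a)) := by
        intro a
        by_cases ha : a ∈ S
        · obtain ⟨σ, hσ⟩ := (h1 a ha).1
          exact ⟨σ, fun _ => hσ⟩
        · exact ⟨0, fun h => absurd h ha⟩
      choose σ hσ using h3
      rcases S.eq_empty_or_nonempty with hS | hS
      · exact ⟨0, fun a ha => by simp [hS] at ha⟩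
      · refine ⟨S.sup' hS σ, fun a ha s hs => hσ a ha s (lt_of_le_of_lt ?_ hs)⟩
        exact Finset.le_sup' σ ha
    obtain ⟨σ, hσ⟩ := h2
    refine ⟨σ, fun s hs => ?_⟩
    have h4 := hasProd_prod (fun a ha => hσ a ha s hs)
    convert h4 using 2 with v
    rw [hP v, Polynomial.eval_prod, ← Finset.prod_inv_distrib]
    apply Finset.prod_congr rfl
    intro a _
    rw [eval_twist, q_pow hE]
  · intro x hx
    have h5 : ∀ a ∈ S, MeromorphicAt (fun s => Fs a (s - n a)) x :=
      fun a ha => (h1 a ha).2 x (by linarith)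
    have := MeromorphicAt.fun_prod h5
    exact this

lemma order_shift (F : ℂ → ℂ) (n : ℕ) (x : ℂ) :
    meromorphicOrderAt (fun s => F (s - n)) x = meromorphicOrderAt F (x - n) :=
  meromorphicOrderAt_fun_comp_sub_const_eq_meromorphicOrderAt

end EulerFactors

end Pool.Agent.R904.RK
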