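import Pool.Agent.R903.Chow
import Mathlib

/-!
# The rank formula of Beilinson and Bloch: definitions

`C` is the theory of Chow groups with rational coefficients, `W` is a Weil cohomology theory, and
the Euler factors of the `L`-functions are a separate datum.
-/

set_option autoImplicit false

open CategoryTheory AlgebraicGeometry
open Pool.Agent.H914 Pool.Agent.H914.VarClass Pool.Agent.H914.VarClass.Obj
open Pool.Agent.R903

universe u v w

namespace Pool.Agent.R904.RK

variable {k : Type u} [Field k] {𝒱 : VarClass k} {C : ChowTheory.{u, v} 𝒱}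

/-- `CH^p(X)_0`: the classes of codimension `p` which are homologically trivial. -/
def hom0 (W : WeilTheory.{u, v, w} C) (X : 𝒱.Obj) (p : ℕ) : Submodule ℚ (C.CH X) :=
  C.gr X p ⊓ (RingHom.ker (W.cl X)).restrictScalars ℚ

/-- The Euler factors: `Pl` is the set of the finite places `v` of `k`, `q v` the number of elements
of the residue field, and `P v X j` is the polynomial `det(1 - Frob_v T | H^j(X)^{I_v})`. -/
structure EulerFactors (𝒱 : VarClass k) where
  Pl : Type
  q : Pl → ℝ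
  P : Pl → 𝒱.Obj → ℕ → Polynomial ℂ

namespace EulerFactors

variable (E : EulerFactors 𝒱)

/-- The Tate twist: the polynomial `P(a T)`. For `P = det(1 - Frob T | V)` and `a = q^n` this is the
polynomial of `V(-n)`. -/
noncomputable def twist (a : ℂ) (P : Polynomial ℂ) : Polynomial ℂ :=
  P.comp (Polynomial.C a * Polynomial.X)

/-- Some basic properties: `q v > 0`, and `H^j(X) = 0` for `j > 2 dim X`. -/
structure Basic : Prop where
  q_pos : ∀ v, 0 < E.q v
  top : ∀ v (X : 𝒱.Obj) j, 2 * X.dim < j → E.P v X j = 1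

/-- Hard Lefschetz: `H^(2d-j)(X) = H^j(X)(j-d)` for `j ≤ d = dim X`. -/
def Lefschetz : Prop :=
  ∀ v (X : 𝒱.Obj) j, j ≤ X.dim →
    E.P v X (2 * X.dim - j) = twist ((E.q v : ℂ) ^ (X.dim - j)) (E.P v X j)

/-- `F` is a meromorphic continuation of `L(H^j(X), s)` along the real axis to the point `s = m`:
for `s` in some half plane, `F s` is the Euler product `∏_v P_v(q_v^(-s))⁻¹`, and `F` is meromorphic
at all real numbers `x ≥ m`. -/
def IsContinuation (X : 𝒱.Obj) (j : ℕ) (m : ℝ) (F : ℂ → ℂ) : Prop :=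
  (∃ σ : ℝ, ∀ s : ℂ, σ < s.re →
    HasProd (fun v => ((E.P v X j).eval ((E.q v : ℂ) ^ (-s)))⁻¹) (F s)) ∧
  ∀ x : ℝ, m ≤ x → MeromorphicAt F x

/-- All `L(H^(2i-1)(X), s)` with `i ≥ 1` continue to the points `s = i`. (This always holds if `k`
is a function field, and conjecturally if `k` is a number field.) -/
def Continues (X : 𝒱.Obj) : Prop :=
  ∀ i : ℕ, 1 ≤ i → ∃ F, E.IsContinuation X (2 * i - 1) i F

end EulerFactors

/-- The conjecture of Beilinson and Bloch for `X` in codimension `i`: `CH^i(X)_0` has finite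
dimension, and its dimension is the order of vanishing of `L(H^(2i-1)(X), s)` at `s = i`. -/
def RankFormula (W : WeilTheory.{u, v, w} C) (E : EulerFactors 𝒱) (X : 𝒱.Obj) (i : ℕ) : Prop :=
  ∀ F, E.IsContinuation X (2 * i - 1) i F →
    Module.Finite ℚ (hom0 W X i) ∧
      meromorphicOrderAt F i = ((Module.finrank ℚ (hom0 W X i) : ℤ) : WithTop ℤ)

/-- `L` behaves like the projective line: the formulas for `CH(X × L)` and `H(X × L)` hold. -/
structure IsLine (C : ChowTheory.{u, v} 𝒱) (E : EulerFactors 𝒱) (L : 𝒱.Obj) : Prop where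
  dim : L.dim = 1
  /-- `CH(X × L) = CH(X) ⊕ CH(X) h`, where `h` is the class of a point of `L` -/
  cycles : ∃ h ∈ C.gr L 1, C.deg L h = 1 ∧ ∀ (X : 𝒱.Obj) (z : C.CH (X.prod L)),
    ∃ a b, z = C.pull (fst X L) a + C.pull (fst X L) b * C.pull (snd X L) h
  /-- `H^j(X × L) = H^j(X) ⊕ H^(j-2)(X)(-1)` -/
  factor : ∀ v (X : 𝒱.Obj) j, E.P v (X.prod L) (j + 2) =
    E.P v X (j + 2) * EulerFactors.twist (E.q v) (E.P v X j)
  factor_low : ∀ v (X : 𝒱.Obj) j, j < 2 → E.P v (X.prod L) j = E.P v X j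

/-- `B` behaves like the blow-up of a projective space along `X`, embedded with codimension `c`:
`CH^p(B)_0 = ⨁ CH^(p-a)(X)_0` and `H^j(B) = ⨁ H^(j-2a)(X)(-a)` for odd `j`, where `0 < a < c`. -/
structure IsBlowUp (W : WeilTheory.{u, v, w} C) (E : EulerFactors 𝒱) (X B : 𝒱.Obj) (c : ℕ) :
    Prop where
  one_lt : 1 < c
  cycles : ∀ p, Nonempty (hom0 W B p ≃ₗ[ℚ] ∀ a : Fin (c - 1), hom0 W X (p - (a + 1)))
  factor : ∀ v (i : ℕ), 1 ≤ i → E.P v B (2 * i - 1) =
    ∏ a ∈ (Finset.Ioo 0 c).filter (· < i),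
      EulerFactors.twist ((E.q v : ℂ) ^ a) (E.P v X (2 * (i - a) - 1))

end Pool.Agent.R904.RK
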