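import Pool.Agent.R904.RK.Ana

/-!
# The order of vanishing as a function of the variety
-/

set_option autoImplicit false

open CategoryTheory AlgebraicGeometry
open Pool.Agent.H914 Pool.Agent.H914.VarClass Pool.Agent.H914.VarClass.Obj
open Pool.Agent.R903

universe u v w

namespace Pool.Agent.R904.RK

variable {k : Type u} [Field k] {𝒱 : VarClass k} {C : ChowTheory.{u, v} 𝒱}
  {W : WeilTheory.{u, v, w} C} {E : EulerFactors 𝒱} {X Y L B : 𝒱.Obj} {F G : ℂ → ℂ}

open EulerFactors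

open Classical in
/-- the order of vanishing of `L(H^(2i-1)(X), s)` at `s = i`; zero if there is no continuation,
or if `i = 0` -/
noncomputable def ord (E : EulerFactors 𝒱) (X : 𝒱.Obj) (i : ℕ) : WithTop ℤ :=
  if h : 1 ≤ i ∧ ∃ F, E.IsContinuation X (2 * i - 1) i F then
    meromorphicOrderAt h.2.choose (i : ℂ) else 0

lemma ord_eq {i : ℕ} (hi : 1 ≤ i) (hF : E.IsContinuation X (2 * i - 1) i F) :
    ord E X i = meromorphicOrderAt F (i : ℂ) := by
  have h : 1 ≤ i ∧ ∃ F, E.IsContinuation X (2 * i - 1) i F := ⟨hi, F, hF⟩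
  rw [ord, dif_pos h]
  have := IsContinuation.order_unique h.2.choose_spec hF
  simpa using this

lemma ord_zero : ord E X 0 = 0 := by
  rw [ord, dif_neg]
  rintro ⟨h, _⟩
  omega

lemma ord_top (hE : E.Basic) {i : ℕ} (h : X.dim < i) : ord E X i = 0 := by
  have h1 : E.IsContinuation X (2 * i - 1) i (fun _ => 1) := by
    refine ⟨⟨0, fun s _ => ?_⟩, fun x _ => MeromorphicAt.const _ _⟩
    have : (fun v => ((E.P v X (2 * i - 1)).eval ((E.q v : ℂ) ^ (-s)))⁻¹) = fun _ => 1 := by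
      funext v
      rw [hE.top v X _ (by omega)]
      simp
    rw [this]
    exact hasProd_one
  rw [ord_eq (by omega) h1]
  rw [meromorphicOrderAt_const]
  simp

lemma cont_prod (hE : E.Basic) (hL : IsLine C E L) (i : ℕ) {F G : ℂ → ℂ}
    (hF : E.IsContinuation X (2 * (i + 2) - 1) ((i + 2 : ℕ) : ℝ) F)
    (hG : E.IsContinuation X (2 * (i + 1) - 1) ((i + 1 : ℕ) : ℝ) G) :
    E.IsContinuation (X.prod L) (2 * (i + 2) - 1) ((i + 2 : ℕ) : ℝ)
      (fun s => F s * G (s - 1)) := by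
  have h := isContinuation_prod (X := X) (Y := X.prod L) (m := ((i + 2 : ℕ) : ℝ)) hE
    (Finset.univ : Finset (Fin 2)) ![0, 1] ![2 * (i + 2) - 1, 2 * (i + 1) - 1] ![F, G]
    (j' := 2 * (i + 2) - 1) ?_ ?_
  · convert h using 2 with s
    simp [Fin.prod_univ_two]
  · intro a _
    fin_cases a
    · simpa using hF
    · have e : (((i + 2 : ℕ) : ℝ) - ((1 : ℕ) : ℝ)) = ((i + 1 : ℕ) : ℝ) := by push_cast; ring
      simp only [Fin.mk_one, Matrix.cons_val_one, Matrix.cons_val_fin_one]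
      rw [e]
      exact hG
  · intro v
    have h1 := hL.factor v X (2 * (i + 1) - 1)
    have e : 2 * (i + 1) - 1 + 2 = 2 * (i + 2) - 1 := by omega
    rw [e] at h1
    rw [h1, Fin.prod_univ_two]
    simp only [Matrix.cons_val_zero, pow_zero, Matrix.cons_val_one, Matrix.cons_val_fin_one,
      pow_one]
    congr 1
    simp [twist]

lemma cont_prod_one (hL : IsLine C E L) {F : ℂ → ℂ} {m : ℝ}
    (hF : E.IsContinuation X (2 * 1 - 1) m F) :
    E.IsContinuation (X.prod L) (2 * 1 - 1) m F := by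
  refine ⟨?_, hF.2⟩
  obtain ⟨σ, h⟩ := hF.1
  refine ⟨σ, fun s hs => ?_⟩
  convert h s hs using 4 with v
  exact hL.factor_low v X 1 (by norm_num)

lemma continues_prod (hE : E.Basic) (hL : IsLine C E L) (hX : E.Continues X) :
    E.Continues (X.prod L) := by
  intro i hi
  match i, hi with
  | 1, _ =>
    obtain ⟨F, hF⟩ := hX 1 le_rfl
    exact ⟨F, cont_prod_one hL hF⟩
  | i + 2, _ =>
    obtain ⟨F, hF⟩ := hX (i + 2) (by omega)
    obtain ⟨G, hG⟩ := hX (i + 1) (by omega)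
    exact ⟨_, cont_prod hE hL i hF hG⟩

lemma ord_prod (hE : E.Basic) (hL : IsLine C E L) (hX : E.Continues X) (i : ℕ) :
    ord E (X.prod L) (i + 1) = ord E X (i + 1) + ord E X i := by
  match i with
  | 0 =>
    obtain ⟨F, hF⟩ := hX 1 le_rfl
    rw [ord_zero, add_zero, zero_add, ord_eq le_rfl hF, ord_eq le_rfl (cont_prod_one hL hF)]
  | i + 1 =>
    obtain ⟨F, hF⟩ := hX (i + 2) (by omega)
    obtain ⟨G, hG⟩ := hX (i + 1) (by omega)
    have h := cont_prod hE hL i hF hG
    rw [ord_eq (by omega) h, ord_eq (by omega) hF, ord_eq (by omega) hG]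
    have hF' : MeromorphicAt F ((i + 2 : ℕ) : ℂ) := by
      have := hF.2 _ le_rfl
      simpa using this
    have hG' : MeromorphicAt (fun s => G (s - 1)) ((i + 2 : ℕ) : ℂ) := by
      have := (hG.shift 1).2 ((i + 2 : ℕ) : ℝ) (by push_cast; linarith)
      simpa using this
    have h2 := meromorphicOrderAt_mul hF' hG'
    have h3 : meromorphicOrderAt (fun s => G (s - 1)) ((i + 2 : ℕ) : ℂ) =
        meromorphicOrderAt G ((i + 1 : ℕ) : ℂ) := by
      rw [meromorphicOrderAt_fun_comp_sub_const_eq_meromorphicOrderAt]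
      congr 1
      push_cast
      ring
    rw [h3] at h2
    exact h2

lemma cont_blowUp (hE : E.Basic) {c : ℕ} (hB : IsBlowUp W E X B c) {p : ℕ} (hp : 1 ≤ p)
    (Fs : ℕ → ℂ → ℂ) (hFs : ∀ i, 1 ≤ i → E.IsContinuation X (2 * i - 1) i (Fs i)) :
    E.IsContinuation B (2 * p - 1) p
      (fun s => ∏ a ∈ (Finset.Ioo 0 c).filter (· < p), Fs (p - a) (s - a)) := by
  have h := isContinuation_prod (X := X) (Y := B) (m := (p : ℝ)) hE
    ((Finset.Ioo 0 c).filter (· < p)) (fun a => a) (fun a => 2 * (p - a) - 1)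
    (fun a => Fs (p - a)) (j' := 2 * p - 1) ?_ (fun v => hB.factor v p hp)
  · exact h
  · intro a ha
    have h1 : a < p := (Finset.mem_filter.1 ha).2
    have h2 := hFs (p - a) (by omega)
    have e : ((p - a : ℕ) : ℝ) = (p : ℝ) - (a : ℝ) := by
      rw [Nat.cast_sub h1.le]
    rw [e] at h2
    exact h2

lemma continues_blowUp (hE : E.Basic) {c : ℕ} (hB : IsBlowUp W E X B c) (hX : E.Continues X) :
    E.Continues B := by
  have : ∀ i, ∃ F, 1 ≤ i → E.IsContinuation X (2 * i - 1) i F := by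
    intro i
    by_cases hi : 1 ≤ i
    · obtain ⟨F, hF⟩ := hX i hi
      exact ⟨F, fun _ => hF⟩
    · exact ⟨0, fun h => absurd h hi⟩
  choose Fs hFs using this
  intro p hp
  exact ⟨_, cont_blowUp hE hB hp Fs hFs⟩

lemma ord_blowUp (hE : E.Basic) {c : ℕ} (hB : IsBlowUp W E X B c) (hX : E.Continues X) {p : ℕ}
    (hp : 1 ≤ p) : ord E B p = ∑ a ∈ (Finset.Ioo 0 c).filter (· < p), ord E X (p - a) := by
  have : ∀ i, ∃ F, 1 ≤ i → E.IsContinuation X (2 * i - 1) i F := by
    intro i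
    by_cases hi : 1 ≤ i
    · obtain ⟨F, hF⟩ := hX i hi
      exact ⟨F, fun _ => hF⟩
    · exact ⟨0, fun h => absurd h hi⟩
  choose Fs hFs using this
  rw [ord_eq hp (cont_blowUp hE hB hp Fs hFs)]
  rw [meromorphicOrderAt_fun_prod]
  · apply Finset.sum_congr rfl
    intro a ha
    have h1 : a < p := (Finset.mem_filter.1 ha).2
    rw [order_shift, ord_eq (by omega) (hFs (p - a) (by omega)), Nat.cast_sub h1.le]
  · intro a ha
    have h1 : a < p := (Finset.mem_filter.1 ha).2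
    have h2 := ((hFs (p - a) (by omega)).shift a).2 p (by rw [Nat.cast_sub h1.le]; linarith)
    simpa using h2

lemma cont_dual (hE : E.Basic) (hLef : E.Lefschetz) {i : ℕ} (hi : 1 ≤ i) (h : 2 * i - 1 ≤ X.dim)
    (hF : E.IsContinuation X (2 * i - 1) i F) :
    E.IsContinuation X (2 * (X.dim + 1 - i) - 1) ((X.dim + 1 - i : ℕ) : ℝ)
      (fun s => F (s - (X.dim - (2 * i - 1) : ℕ))) := by
  have h1 := isContinuation_prod (X := X) (Y := X) (m := ((X.dim + 1 - i : ℕ) : ℝ)) hE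
    (Finset.univ : Finset (Fin 1)) (fun _ => X.dim - (2 * i - 1)) (fun _ => 2 * i - 1)
    (fun _ => F) (j' := 2 * (X.dim + 1 - i) - 1) ?_ ?_
  · simpa using h1
  · intro a _
    have e : ((X.dim + 1 - i : ℕ) : ℝ) - ((X.dim - (2 * i - 1) : ℕ) : ℝ) = (i : ℝ) := by
      rw [← Nat.cast_sub (by omega)]
      congr 1
      omega
    rw [e]
    exact hF
  · intro v
    have h2 := hLef v X (2 * i - 1) h
    have e : 2 * X.dim - (2 * i - 1) = 2 * (X.dim + 1 - i) - 1 := by omega
    rw [e] at h2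
    rw [h2]
    simp

lemma ord_dual' (hE : E.Basic) (hLef : E.Lefschetz) (hX : E.Continues X) {i : ℕ} (hi : 1 ≤ i)
    (h : 2 * i - 1 ≤ X.dim) : ord E X (X.dim + 1 - i) = ord E X i := by
  obtain ⟨F, hF⟩ := hX i hi
  rw [ord_eq hi hF, ord_eq (by omega) (cont_dual hE hLef hi h hF), order_shift]
  congr 1
  rw [← Nat.cast_sub (by omega)]
  congr 1
  omega

lemma ord_dual (hE : E.Basic) (hLef : E.Lefschetz) (hX : E.Continues X) {i : ℕ} (hi : 1 ≤ i)
    (h : i ≤ X.dim) : ord E X (X.dim + 1 - i) = ord E X i := by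
  by_cases h1 : 2 * i - 1 ≤ X.dim
  · exact ord_dual' hE hLef hX hi h1
  · have := ord_dual' hE hLef hX (i := X.dim + 1 - i) (by omega) (by omega)
    rw [← this]
    congr 1
    omega

end Pool.Agent.R904.RK
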